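import Pool.Agent.Helper88.Ric.Stmts

set_option autoImplicit false

open scoped ContDiff Manifold Topology MatrixGroups
open Complex

noncomputable section

namespace RicP

/-! ### second derivative test -/

theorem maxp_snd {f f' : ℝ → ℝ} {c : ℝ} (hf : ∀ᶠ s in 𝓝 (0 : ℝ), HasDerivAt f (f' s) s)
    (hf' : HasDerivAt f' c 0) (hmax : ∀ᶠ s in 𝓝 (0 : ℝ), f s ≤ f 0) : f' 0 = 0 ∧ c ≤ 0 := by
  have h0 : f' 0 = 0 := IsLocalMax.hasDerivAt_eq_zero hmax hf.self_of_nhds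
  refine ⟨h0, ?_⟩
  by_contra hc
  rw [not_le] at hc
  have hd : deriv f =ᶠ[𝓝 0] f' := hf.mono fun s hs => hs.deriv
  have hdd : deriv (deriv f) 0 = c := by
    rw [hd.deriv_eq]
    exact hf'.deriv
  have hmin : IsLocalMin f 0 := by
    apply isLocalMin_of_deriv_deriv_pos
    · rw [hdd]; exact hc
    · rw [hd.eq_of_nhds]; exact h0
    · exact hf.self_of_nhds.continuousAt
  have heq : f =ᶠ[𝓝 0] fun _ => f 0 := by
    filter_upwards [hmax, hmin] with s h1 h2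
    exact le_antisymm h1 h2
  have h1 : deriv f =ᶠ[𝓝 0] deriv (fun _ => f 0) := heq.deriv
  have h2 : deriv (deriv f) 0 = deriv (deriv (fun _ : ℝ => f 0)) 0 := h1.deriv_eq
  rw [hdd] at h2
  have h3 : deriv (fun _ : ℝ => f 0) = fun _ => 0 := by
    funext x
    exact deriv_const x (f 0)
  rw [h3, deriv_const] at h2
  linarith

theorem maxp_re {P : ℝ → ℂ} {p' : ℂ} {s : ℝ} (h : HasDerivAt P p' s) :
    HasDerivAt (fun s => (P s).re) p'.re s := by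
  exact (Complex.reCLM.hasFDerivAt (x := P s)).comp_hasDerivAt s h

theorem maxp_im {P : ℝ → ℂ} {p' : ℂ} {s : ℝ} (h : HasDerivAt P p' s) :
    HasDerivAt (fun s => (P s).im) p'.im s := by
  exact (Complex.imCLM.hasFDerivAt (x := P s)).comp_hasDerivAt s h

theorem maxp_ofReal {P : ℝ → ℝ} {p' : ℝ} {s : ℝ} (h : HasDerivAt P p' s) :
    HasDerivAt (fun s => ((P s : ℝ) : ℂ)) (p' : ℂ) s := h.ofReal_comp

theorem maxp_line {F : ℂ → ℂ} {F' τ v : ℂ} {s : ℝ} (h : HasDerivAt F F' (τ + s * v)) :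
    HasDerivAt (fun s : ℝ => F (τ + s * v)) (F' * v) s := by
  have h1 : HasDerivAt (fun w : ℂ => τ + w * v) v (s : ℂ) := by
    simpa using ((hasDerivAt_id (s : ℂ)).mul_const v).const_add τ
  have h2 : HasDerivAt (fun w : ℂ => F (τ + w * v)) (F' * v) (s : ℂ) :=
    HasDerivAt.comp (s : ℂ) h h1
  exact h2.comp_ofReal

theorem maxp_arg (τ v : ℂ) (s : ℝ) : HasDerivAt (fun s : ℝ => τ + s * v) v s := by
  have h1 : HasDerivAt (fun w : ℂ => τ + w * v) v (s : ℂ) := by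
    simpa using ((hasDerivAt_id (s : ℂ)).mul_const v).const_add τ
  exact h1.comp_ofReal

theorem maxp_isOpen : IsOpen {τ : ℂ | 0 < τ.im} := isOpen_lt continuous_const Complex.continuous_im

theorem maxp_near {τ : ℂ} (hτ : 0 < τ.im) (v : ℂ) :
    ∀ᶠ s : ℝ in 𝓝 0, 0 < (τ + (s : ℂ) * v).im := by
  have hc : Continuous fun s : ℝ => (τ + (s : ℂ) * v).im := by fun_prop
  have h0 : 0 < (τ + ((0 : ℝ) : ℂ) * v).im := by simpa using hτ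
  exact (hc.tendsto 0).eventually (lt_mem_nhds h0)

variable (M : ModData)

theorem maxp_gdiff {τ : ℂ} (hτ : 0 < τ.im) : DifferentiableAt ℂ M.g τ := by
  have h1 : DifferentiableOn ℂ M.F₁ {τ : ℂ | 0 < τ.im} := fun z hz =>
    (M.hF₁ z hz).differentiableAt.differentiableWithinAt
  have h2 : DifferentiableOn ℂ (deriv M.F₁) {τ : ℂ | 0 < τ.im} := h1.deriv maxp_isOpen
  have h3 : DifferentiableAt ℂ (deriv M.F₁) τ := h2.differentiableAt (maxp_isOpen.mem_nhds hτ)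
  have h4 : deriv M.F₁ =ᶠ[𝓝 τ] M.g := by
    filter_upwards [maxp_isOpen.mem_nhds hτ] with z hz
    exact (M.hF₁ z hz).deriv
  exact h3.congr_of_eventuallyEq h4.symm

/-- the function `Ψ` -/
def maxp_Psi (δ : ℝ) (D : ℂ → ℂ) (ζ τ : ℂ) : ℂ := D τ - sF M δ ζ τ

/-- first derivative of `Ψ` along a line -/
def maxp_P1 (δ : ℝ) (D : ℂ → ℂ) (ζ v τ : ℂ) : ℂ :=
  deriv D τ * v - (δ : ℂ) * ((((ζ * (M.g τ * v)).re : ℝ) : ℂ) * τ +
    (((ζ * M.F₁ τ).re : ℝ) : ℂ) * v + (((ζ * (-(τ * M.g τ) * v)).re : ℝ) : ℂ))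

theorem maxp_d1 {δ : ℝ} {D : ℂ → ℂ} (hD : DifferentiableOn ℂ D {τ : ℂ | 0 < τ.im}) (ζ v τ : ℂ)
    (s : ℝ) (hs : 0 < (τ + s * v).im) :
    HasDerivAt (fun s : ℝ => maxp_Psi M δ D ζ (τ + s * v)) (maxp_P1 M δ D ζ v (τ + s * v)) s := by
  have h1 : HasDerivAt D (deriv D (τ + s * v)) (τ + s * v) :=
    (hD.differentiableAt (maxp_isOpen.mem_nhds hs)).hasDerivAt
  have h2 := maxp_line h1
  have h3 := maxp_ofReal (maxp_re ((maxp_line (M.hF₁ _ hs)).const_mul ζ))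
  have h4 := maxp_ofReal (maxp_re ((maxp_line (M.hF₂ _ hs)).const_mul ζ))
  have h5 := h2.sub (((h3.mul (maxp_arg τ v s)).add h4).const_mul (δ : ℂ))
  exact h5

/-- second derivative of `Ψ` along a line -/
def maxp_P2 (δ : ℝ) (D : ℂ → ℂ) (ζ v τ : ℂ) : ℂ :=
  deriv (deriv D) τ * v * v - (δ : ℂ) * ((((ζ * (deriv M.g τ * v * v)).re : ℝ) : ℂ) * τ +
    (((ζ * (M.g τ * v)).re : ℝ) : ℂ) * v + (((ζ * (M.g τ * v)).re : ℝ) : ℂ) * v +
    (((ζ * (-(1 * M.g τ + τ * deriv M.g τ) * v * v)).re : ℝ) : ℂ))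

theorem maxp_d2 {δ : ℝ} {D : ℂ → ℂ} (hD : DifferentiableOn ℂ D {τ : ℂ | 0 < τ.im}) (ζ v τ : ℂ)
    (s : ℝ) (hs : 0 < (τ + s * v).im) :
    HasDerivAt (fun s : ℝ => maxp_P1 M δ D ζ v (τ + s * v)) (maxp_P2 M δ D ζ v (τ + s * v)) s := by
  have hD' : DifferentiableOn ℂ (deriv D) {τ : ℂ | 0 < τ.im} := hD.deriv maxp_isOpen
  have h1 : HasDerivAt (deriv D) (deriv (deriv D) (τ + s * v)) (τ + s * v) :=
    (hD'.differentiableAt (maxp_isOpen.mem_nhds hs)).hasDerivAt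
  have h2 := (maxp_line h1).mul_const v
  have hg : HasDerivAt M.g (deriv M.g (τ + s * v)) (τ + s * v) := (maxp_gdiff M hs).hasDerivAt
  have h3 := maxp_ofReal (maxp_re (((maxp_line hg).mul_const v).const_mul ζ))
  have h4 := maxp_ofReal (maxp_re ((maxp_line (M.hF₁ _ hs)).const_mul ζ))
  have hg2 : HasDerivAt (fun z : ℂ => -(z * M.g z))
      (-(1 * M.g (τ + s * v) + (τ + s * v) * deriv M.g (τ + s * v))) (τ + s * v) :=
    ((hasDerivAt_id (τ + s * v)).mul hg).neg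
  have h5 := maxp_ofReal (maxp_re (((maxp_line hg2).mul_const v).const_mul ζ))
  have h6 := h2.sub ((((h3.mul (maxp_arg τ v s)).add (h4.mul_const v)).add h5).const_mul (δ : ℂ))
  exact h6

theorem maxp_alg (p1 p2 e d k1 k2 y R m : ℝ) (hy : 0 < y) (hR : R = p1 ^ 2 + p2 ^ 2) (hR0 : 0 < R)
    (hm : R = m * y)
    (h2 : 2 * (p1 * (-d - k1) + p2 * (e + k2)) = m)
    (h3 : -(4 * (k1 * p1 - k2 * p2)) + 4 * (e ^ 2 + k2 ^ 2 + d ^ 2 + k1 ^ 2) * y ≤ 0) : False := by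
  have hs2 : (e * p2 - d * p1) * y = R / 2 + (k1 * p1 - k2 * p2) * y := by
    rw [hm]
    linear_combination (y / 2) * h2
  have e1 : (e ^ 2 + d ^ 2) * R = (e * p1 + d * p2) ^ 2 + (e * p2 - d * p1) ^ 2 := by
    rw [hR]; ring
  have e2 : (k1 ^ 2 + k2 ^ 2) * R = (k2 * p1 + k1 * p2) ^ 2 + (k1 * p1 - k2 * p2) ^ 2 := by
    rw [hR]; ring
  have h4 : (-(4 * (k1 * p1 - k2 * p2)) + 4 * (e ^ 2 + k2 ^ 2 + d ^ 2 + k1 ^ 2) * y) * (R * y) ≤ 0 :=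
    mul_nonpos_of_nonpos_of_nonneg h3 (mul_pos hR0 hy).le
  have h5 : (-(4 * (k1 * p1 - k2 * p2)) + 4 * (e ^ 2 + k2 ^ 2 + d ^ 2 + k1 ^ 2) * y) * (R * y) =
      4 * (((e * p1 + d * p2) * y) ^ 2 + ((e * p2 - d * p1) * y) ^ 2 +
        ((k2 * p1 + k1 * p2) * y) ^ 2 + ((k1 * p1 - k2 * p2) * y) ^ 2 -
        (k1 * p1 - k2 * p2) * y * R) := by
    linear_combination (4 * y ^ 2) * e1 + (4 * y ^ 2) * e2
  rw [h5, hs2] at h4
  have h6 : 0 < R ^ 2 := by positivity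
  nlinarith [sq_nonneg ((k2 * p1 + k1 * p2) * y), sq_nonneg ((k1 * p1 - k2 * p2) * y),
    sq_nonneg ((e * p1 + d * p2) * y)]

/-- first and second order conditions along a line -/
theorem maxp_cond {δ : ℝ} {D : ℂ → ℂ} (hD : DifferentiableOn ℂ D {τ : ℂ | 0 < τ.im}) (ζ v τ : ℂ)
    (hτ : 0 < τ.im) (m : ℝ)
    (hle : ∀ σ : ℂ, 0 < σ.im → Complex.normSq (maxp_Psi M δ D ζ σ) ≤ m * σ.im)
    (heq : Complex.normSq (maxp_Psi M δ D ζ τ) = m * τ.im) :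
    2 * ((maxp_Psi M δ D ζ τ).re * (maxp_P1 M δ D ζ v τ).re +
      (maxp_Psi M δ D ζ τ).im * (maxp_P1 M δ D ζ v τ).im) = m * v.im ∧
    (maxp_P1 M δ D ζ v τ).re ^ 2 + (maxp_P1 M δ D ζ v τ).im ^ 2 +
      ((maxp_Psi M δ D ζ τ).re * (maxp_P2 M δ D ζ v τ).re +
      (maxp_Psi M δ D ζ τ).im * (maxp_P2 M δ D ζ v τ).im) ≤ 0 := by
  set P : ℝ → ℂ := fun s => maxp_Psi M δ D ζ (τ + s * v) with hP
  set P1 : ℝ → ℂ := fun s => maxp_P1 M δ D ζ v (τ + s * v) with hP1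
  set f : ℝ → ℝ := fun s => (P s).re * (P s).re + (P s).im * (P s).im - m * (τ + s * v).im with hf
  set f' : ℝ → ℝ := fun s => ((P1 s).re * (P s).re + (P s).re * (P1 s).re) +
    ((P1 s).im * (P s).im + (P s).im * (P1 s).im) - m * v.im with hf'
  have hev := maxp_near hτ v
  have h1 : ∀ᶠ s in 𝓝 (0 : ℝ), HasDerivAt f (f' s) s := by
    filter_upwards [hev] with s hs
    have hd := maxp_d1 M hD ζ v τ s hs (δ := δ)
    have hr := maxp_re hd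
    have hi := maxp_im hd
    have hl := (maxp_im (maxp_arg τ v s)).const_mul m
    exact ((hr.mul hr).add (hi.mul hi)).sub hl
  have hs0 : 0 < (τ + ((0 : ℝ) : ℂ) * v).im := by simpa using hτ
  have hd0 := maxp_d1 M hD ζ v τ 0 hs0 (δ := δ)
  have hd20 := maxp_d2 M hD ζ v τ 0 hs0 (δ := δ)
  have hr := maxp_re hd0
  have hi := maxp_im hd0
  have hr2 := maxp_re hd20
  have hi2 := maxp_im hd20
  have h2 : HasDerivAt f' _ 0 :=
    (((hr2.mul hr).add (hr.mul hr2)).add ((hi2.mul hi).add (hi.mul hi2))).sub_const (m * v.im)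
  have hP0 : P 0 = maxp_Psi M δ D ζ τ := by
    show maxp_Psi M δ D ζ (τ + ((0 : ℝ) : ℂ) * v) = _
    simp
  have hP10 : P1 0 = maxp_P1 M δ D ζ v τ := by
    show maxp_P1 M δ D ζ v (τ + ((0 : ℝ) : ℂ) * v) = _
    simp
  have hz : τ + ((0 : ℝ) : ℂ) * v = τ := by simp
  have hmax : ∀ᶠ s in 𝓝 (0 : ℝ), f s ≤ f 0 := by
    filter_upwards [hev] with s hs
    have h3 := hle _ hs
    have h4 : f s ≤ 0 := by
      show (P s).re * (P s).re + (P s).im * (P s).im - m * (τ + s * v).im ≤ 0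
      rw [Complex.normSq_apply] at h3
      linarith
    have h5 : f 0 = 0 := by
      show (P 0).re * (P 0).re + (P 0).im * (P 0).im - m * (τ + ((0 : ℝ) : ℂ) * v).im = 0
      rw [Complex.normSq_apply] at heq
      rw [hP0, hz]
      linarith
    rw [h5]; exact h4
  obtain ⟨h3, h4⟩ := maxp_snd h1 h2 hmax
  refine ⟨?_, ?_⟩
  · have : f' 0 = 0 := h3
    simp only [hf', hP0, hP10] at this
    linarith
  · simp only [hz] at h4
    linarith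

theorem maxp_v1 (δ : ℝ) (D : ℂ → ℂ) (ζ τ : ℂ) :
    (maxp_P1 M δ D ζ 1 τ).re = (deriv D τ).re - δ * (ζ * M.F₁ τ).re - δ * τ.im * (ζ * M.g τ).im ∧
    (maxp_P1 M δ D ζ 1 τ).im = (deriv D τ).im - δ * τ.im * (ζ * M.g τ).re := by
  constructor <;>
  · simp only [maxp_P1, Complex.sub_re, Complex.sub_im, Complex.mul_re, Complex.mul_im,
      Complex.add_re, Complex.add_im, Complex.ofReal_re, Complex.ofReal_im, Complex.one_re,
      Complex.one_im, Complex.neg_re, Complex.neg_im]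
    ring

theorem maxp_vI (δ : ℝ) (D : ℂ → ℂ) (ζ τ : ℂ) :
    (maxp_P1 M δ D ζ I τ).re = -(deriv D τ).im - δ * τ.im * (ζ * M.g τ).re ∧
    (maxp_P1 M δ D ζ I τ).im =
      (deriv D τ).re - δ * (ζ * M.F₁ τ).re + δ * τ.im * (ζ * M.g τ).im := by
  constructor <;>
  · simp only [maxp_P1, Complex.sub_re, Complex.sub_im, Complex.mul_re, Complex.mul_im,
      Complex.add_re, Complex.add_im, Complex.ofReal_re, Complex.ofReal_im, Complex.I_re,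
      Complex.I_im, Complex.neg_re, Complex.neg_im]
    ring

theorem maxp_sum2 (δ : ℝ) (D : ℂ → ℂ) (ζ τ : ℂ) :
    (maxp_P2 M δ D ζ 1 τ).re + (maxp_P2 M δ D ζ I τ).re = -(2 * δ * (ζ * M.g τ).re) ∧
    (maxp_P2 M δ D ζ 1 τ).im + (maxp_P2 M δ D ζ I τ).im = 2 * δ * (ζ * M.g τ).im := by
  constructor <;>
  · simp only [maxp_P2, Complex.sub_re, Complex.sub_im, Complex.mul_re, Complex.mul_im,
      Complex.add_re, Complex.add_im, Complex.ofReal_re, Complex.ofReal_im, Complex.one_re,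
      Complex.one_im, Complex.I_re, Complex.I_im, Complex.neg_re, Complex.neg_im]
    ring

/-- no positive maximum -/
theorem maxp_point {δ : ℝ} {D : ℂ → ℂ} (hD : DifferentiableOn ℂ D {τ : ℂ | 0 < τ.im}) (ζ τ : ℂ)
    (hτ : 0 < τ.im) (m : ℝ)
    (hle : ∀ σ : ℂ, 0 < σ.im → Complex.normSq (maxp_Psi M δ D ζ σ) ≤ m * σ.im)
    (heq : Complex.normSq (maxp_Psi M δ D ζ τ) = m * τ.im)
    (hne : maxp_Psi M δ D ζ τ ≠ 0) : False := by
  obtain ⟨-, h2⟩ := maxp_cond M hD ζ 1 τ hτ m hle heq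
  obtain ⟨h3, h4⟩ := maxp_cond M hD ζ I τ hτ m hle heq
  obtain ⟨a1, a2⟩ := maxp_v1 M δ D ζ τ
  obtain ⟨b1, b2⟩ := maxp_vI M δ D ζ τ
  obtain ⟨c1, c2⟩ := maxp_sum2 M δ D ζ τ
  have hR0 : 0 < Complex.normSq (maxp_Psi M δ D ζ τ) := Complex.normSq_pos.2 hne
  rw [Complex.I_im, mul_one, b1, b2] at h3
  rw [a1, a2] at h2
  rw [b1, b2] at h4
  set p1 := (maxp_Psi M δ D ζ τ).re
  set p2 := (maxp_Psi M δ D ζ τ).im
  set q1 := (maxp_P2 M δ D ζ 1 τ).re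
  set q2 := (maxp_P2 M δ D ζ 1 τ).im
  set r1 := (maxp_P2 M δ D ζ I τ).re
  set r2 := (maxp_P2 M δ D ζ I τ).im
  set g1 := (ζ * M.g τ).re
  set g2 := (ζ * M.g τ).im
  set d1 := (deriv D τ).re
  set d2 := (deriv D τ).im
  set r := (ζ * M.F₁ τ).re
  set y := τ.im
  refine maxp_alg p1 p2 (d1 - δ * r) d2 (δ * y * g1) (δ * y * g2) y
    (Complex.normSq (maxp_Psi M δ D ζ τ)) m hτ ?_ hR0 heq ?_ ?_
  · rw [Complex.normSq_apply]; ring
  · linarith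
  · have h5 : p1 * (q1 + r1) + p2 * (q2 + r2) = -(2 * δ * g1) * p1 + 2 * δ * g2 * p2 := by
      rw [c1, c2]; ring
    have h6 : 2 * ((d1 - δ * r) ^ 2 + (δ * y * g2) ^ 2 + d2 ^ 2 + (δ * y * g1) ^ 2) +
        (-(2 * δ * g1) * p1 + 2 * δ * g2 * p2) ≤ 0 := by
      rw [← h5]
      have := add_nonpos h2 h4
      refine le_trans (le_of_eq ?_) this
      ring
    have h7 := mul_nonpos_of_nonpos_of_nonneg h6 (mul_pos (two_pos : (0 : ℝ) < 2) hτ).le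
    refine le_trans (le_of_eq ?_) h7
    ring

/-- if `Ψ` vanishes identically, so does `δ ζ g` -/
theorem maxp_zero {δ : ℝ} {D : ℂ → ℂ} (hD : DifferentiableOn ℂ D {τ : ℂ | 0 < τ.im}) (ζ τ : ℂ)
    (hτ : 0 < τ.im) (h0 : ∀ σ : ℂ, 0 < σ.im → maxp_Psi M δ D ζ σ = 0) :
    (δ : ℂ) * (ζ * M.g τ) = 0 := by
  have key : ∀ v : ℂ, maxp_P1 M δ D ζ v τ = 0 := by
    intro v
    have hs0 : 0 < (τ + ((0 : ℝ) : ℂ) * v).im := by simpa using hτ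
    have hd0 := maxp_d1 M hD ζ v τ 0 hs0 (δ := δ)
    have hz : τ + ((0 : ℝ) : ℂ) * v = τ := by simp
    rw [hz] at hd0
    have h1 : (fun s : ℝ => maxp_Psi M δ D ζ (τ + s * v)) =ᶠ[𝓝 0] fun _ => 0 := by
      filter_upwards [maxp_near hτ v] with s hs
      exact h0 _ hs
    have h2 := (hasDerivAt_const (0 : ℝ) (0 : ℂ)).congr_of_eventuallyEq h1
    exact hd0.unique h2
  obtain ⟨a1, a2⟩ := maxp_v1 M δ D ζ τ
  obtain ⟨b1, b2⟩ := maxp_vI M δ D ζ τ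
  rw [key 1] at a1 a2
  rw [key I] at b1 b2
  simp only [Complex.zero_re, Complex.zero_im] at a1 a2 b1 b2
  have h1 : δ * (ζ * M.g τ).re = 0 := by
    have : τ.im * (δ * (ζ * M.g τ).re) = 0 := by linarith
    exact (mul_eq_zero.1 this).resolve_left hτ.ne'
  have h2 : δ * (ζ * M.g τ).im = 0 := by
    have : τ.im * (δ * (ζ * M.g τ).im) = 0 := by linarith
    exact (mul_eq_zero.1 this).resolve_left hτ.ne'
  apply Complex.ext
  · simpa using h1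
  · simpa using h2


/-! ### the modular part -/

open scoped UpperHalfPlane

theorem maxp_mob (γ : SL(2, ℤ)) (τ : ℍ) : ((γ • τ : ℍ) : ℂ) = mob γ τ := by
  rw [UpperHalfPlane.coe_specialLinearGroup_apply]
  simp [mob]

theorem maxp_imm (γ : SL(2, ℤ)) (τ : ℍ) : (γ • τ : ℍ).im = τ.im / Complex.normSq (jj γ τ) := by
  rw [ModularGroup.im_smul_eq_div_normSq]
  rfl

theorem maxp_jj_ne (γ : SL(2, ℤ)) (τ : ℍ) : jj γ τ ≠ 0 :=
  UpperHalfPlane.denom_ne_zero (γ : GL (Fin 2) ℝ) τ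

/-- transformation of `sF` -/
theorem maxp_sF (δ : ℝ) (ζ' : ℂ) (γ : SL(2, ℤ)) (τ : ℍ) :
    sF M δ ζ' (mob γ τ) * jj γ τ = sF M δ (ζ' * M.χ γ) τ +
      (δ : ℂ) * ((((ζ' * M.V₁ γ).re : ℝ) : ℂ) * τ + (((ζ' * M.V₂ γ).re : ℝ) : ℂ)) := by
  have hj := maxp_jj_ne γ τ
  have h1 := M.period₁ γ τ τ.im_pos
  have h2 := M.period₂ γ τ τ.im_pos
  have hm : mob γ τ * jj γ τ = ((γ 0 0 : ℤ) : ℂ) * τ + ((γ 0 1 : ℤ) : ℂ) := by
    unfold mob
    exact div_mul_cancel₀ _ hj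
  have r1 := congrArg (fun z : ℂ => (ζ' * z).re) h1
  have r2 := congrArg (fun z : ℂ => (ζ' * z).re) h2
  have e1 : (ζ' * M.F₁ (mob γ τ)).re * ((γ 0 0 : ℤ) : ℝ) +
      (ζ' * M.F₂ (mob γ τ)).re * ((γ 1 0 : ℤ) : ℝ) =
      (ζ' * M.χ γ * M.F₁ τ).re + (ζ' * M.V₁ γ).re := by
    have a1 : (ζ' * (M.F₁ (mob γ τ) * ((γ 0 0 : ℤ) : ℂ) + M.F₂ (mob γ τ) * ((γ 1 0 : ℤ) : ℂ))).re =
        (ζ' * M.F₁ (mob γ τ)).re * ((γ 0 0 : ℤ) : ℝ) +
          (ζ' * M.F₂ (mob γ τ)).re * ((γ 1 0 : ℤ) : ℝ) := by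
      rw [show ζ' * (M.F₁ (mob γ τ) * ((γ 0 0 : ℤ) : ℂ) + M.F₂ (mob γ τ) * ((γ 1 0 : ℤ) : ℂ)) =
        (ζ' * M.F₁ (mob γ τ)) * (((γ 0 0 : ℤ) : ℝ) : ℂ) +
          (ζ' * M.F₂ (mob γ τ)) * (((γ 1 0 : ℤ) : ℝ) : ℂ) by push_cast; ring]
      rw [Complex.add_re, Complex.re_mul_ofReal, Complex.re_mul_ofReal]
    have b1 : (ζ' * (M.F₁ (mob γ τ) * ((γ 0 0 : ℤ) : ℂ) + M.F₂ (mob γ τ) * ((γ 1 0 : ℤ) : ℂ))).re =
        (ζ' * (M.χ γ * M.F₁ τ + M.V₁ γ)).re := r1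
    rw [← a1, b1, mul_add, Complex.add_re, mul_assoc]
  have e2 : (ζ' * M.F₁ (mob γ τ)).re * ((γ 0 1 : ℤ) : ℝ) +
      (ζ' * M.F₂ (mob γ τ)).re * ((γ 1 1 : ℤ) : ℝ) =
      (ζ' * M.χ γ * M.F₂ τ).re + (ζ' * M.V₂ γ).re := by
    have a1 : (ζ' * (M.F₁ (mob γ τ) * ((γ 0 1 : ℤ) : ℂ) + M.F₂ (mob γ τ) * ((γ 1 1 : ℤ) : ℂ))).re =
        (ζ' * M.F₁ (mob γ τ)).re * ((γ 0 1 : ℤ) : ℝ) +
          (ζ' * M.F₂ (mob γ τ)).re * ((γ 1 1 : ℤ) : ℝ) := by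
      rw [show ζ' * (M.F₁ (mob γ τ) * ((γ 0 1 : ℤ) : ℂ) + M.F₂ (mob γ τ) * ((γ 1 1 : ℤ) : ℂ)) =
        (ζ' * M.F₁ (mob γ τ)) * (((γ 0 1 : ℤ) : ℝ) : ℂ) +
          (ζ' * M.F₂ (mob γ τ)) * (((γ 1 1 : ℤ) : ℝ) : ℂ) by push_cast; ring]
      rw [Complex.add_re, Complex.re_mul_ofReal, Complex.re_mul_ofReal]
    have b1 : (ζ' * (M.F₁ (mob γ τ) * ((γ 0 1 : ℤ) : ℂ) + M.F₂ (mob γ τ) * ((γ 1 1 : ℤ) : ℂ))).re =
        (ζ' * (M.χ γ * M.F₂ τ + M.V₂ γ)).re := r2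
    rw [← a1, b1, mul_add, Complex.add_re, mul_assoc]
  have f1 := congrArg (fun x : ℝ => (x : ℂ)) e1
  have f2 := congrArg (fun x : ℝ => (x : ℂ)) e2
  simp only [Complex.ofReal_add, Complex.ofReal_mul, Complex.ofReal_intCast] at f1 f2
  have hjj : jj γ τ = ((γ 1 0 : ℤ) : ℂ) * τ + ((γ 1 1 : ℤ) : ℂ) := rfl
  unfold sF
  calc (δ : ℂ) * (((ζ' * M.F₁ (mob γ τ)).re : ℂ) * mob γ τ + ((ζ' * M.F₂ (mob γ τ)).re : ℂ)) *
        jj γ τ
      = (δ : ℂ) * (((ζ' * M.F₁ (mob γ τ)).re : ℂ) * (mob γ τ * jj γ τ) +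
          ((ζ' * M.F₂ (mob γ τ)).re : ℂ) * jj γ τ) := by ring
    _ = (δ : ℂ) * ((((ζ' * M.F₁ (mob γ τ)).re : ℂ) * ((γ 0 0 : ℤ) : ℂ) +
          ((ζ' * M.F₂ (mob γ τ)).re : ℂ) * ((γ 1 0 : ℤ) : ℂ)) * τ +
          (((ζ' * M.F₁ (mob γ τ)).re : ℂ) * ((γ 0 1 : ℤ) : ℂ) +
          ((ζ' * M.F₂ (mob γ τ)).re : ℂ) * ((γ 1 1 : ℤ) : ℂ))) := by
        rw [hm, hjj]; ring
    _ = _ := by rw [f1, f2]; ring

variable {N : ℕ}

theorem maxp_zet {q q' : QN M N} {γ : SL(2, ℤ)}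
    (h : (q : SL(2, ZMod N) × ℂˣ) = (q' : SL(2, ZMod N) × ℂˣ) * hN M N γ) :
    zet M q = zet M q' * M.χ γ := by
  unfold zet
  rw [h]
  simp [hN]

theorem maxp_zet_ne (q : QN M N) : zet M q ≠ 0 := by
  unfold zet
  exact Units.ne_zero _

/-- the invariant function -/
def maxp_N (δ : ℝ) (D : QN M N → ℂ → ℂ) (q : QN M N) (τ : ℍ) : ℝ :=
  Complex.normSq (maxp_Psi M δ (D q) (zet M q) τ) / τ.im

def maxp_Inv (δ : ℝ) (D : QN M N → ℂ → ℂ) (γ : SL(2, ℤ)) : Prop :=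
  ∀ q q' : QN M N, (q : SL(2, ZMod N) × ℂˣ) = (q' : SL(2, ZMod N) × ℂˣ) * hN M N γ →
    ∀ τ : ℍ, maxp_N M δ D q' (γ • τ) = maxp_N M δ D q τ

theorem maxp_inv_gen (δ : ℝ) (D : QN M N → ℂ → ℂ) (γ : SL(2, ℤ))
    (h : ∀ (q q' : QN M N), (q : SL(2, ZMod N) × ℂˣ) = (q' : SL(2, ZMod N) × ℂˣ) * hN M N γ →
      ∀ τ : ℂ, 0 < τ.im → D q' (mob γ τ) * jj γ τ = D q τ
        + (δ : ℂ) * ((((zet M q' * M.V₁ γ).re : ℝ) : ℂ) * τ
          + (((zet M q' * M.V₂ γ).re : ℝ) : ℂ))) : maxp_Inv M δ D γ := by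
  intro q q' hq τ
  have h1 := h q q' hq τ τ.im_pos
  have h2 := maxp_sF M δ (zet M q') γ τ
  rw [← maxp_zet M hq] at h2
  have h3 : maxp_Psi M δ (D q') (zet M q') (mob γ τ) * jj γ τ =
      maxp_Psi M δ (D q) (zet M q) τ := by
    unfold maxp_Psi
    rw [sub_mul, h1, h2]
    ring
  have hj := maxp_jj_ne γ τ
  have hj' : Complex.normSq (jj γ τ) ≠ 0 := by
    intro h0
    exact hj (Complex.normSq_eq_zero.1 h0)
  unfold maxp_N
  rw [maxp_mob, maxp_imm, ← h3, Complex.normSq_mul]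
  have := τ.im_pos.ne'
  field_simp

theorem maxp_inv_all (δ : ℝ) (D : QN M N → ℂ → ℂ) (hS : maxp_Inv M δ D ModularGroup.S)
    (hT : maxp_Inv M δ D ModularGroup.T) (γ : SL(2, ℤ)) : maxp_Inv M δ D γ := by
  have hγ : γ ∈ Subgroup.closure {ModularGroup.S, ModularGroup.T} := by
    simp [SpecialLinearGroup.SL2Z_generators]
  induction hγ using Subgroup.closure_induction with
  | one =>
    intro q q' hq τ
    rw [map_one, mul_one] at hq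
    rw [one_smul, Subtype.ext hq]
  | mem g hg =>
    rcases hg with rfl | hg
    · exact hS
    · rw [Set.mem_singleton_iff] at hg
      rw [hg]; exact hT
  | mul g g' _ _ ig ig' =>
    intro q q' hq τ
    rw [mul_smul]
    have hmem : (q' : SL(2, ZMod N) × ℂˣ) * hN M N g ∈ (hN M N).range :=
      (hN M N).range.mul_mem q'.2 ⟨g, rfl⟩
    rw [ig ⟨_, hmem⟩ q' rfl (g' • τ)]
    apply ig' q ⟨_, hmem⟩
    rw [hq, map_mul, mul_assoc]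
  | inv g _ ig =>
    intro q q' hq τ
    have h1 : (q' : SL(2, ZMod N) × ℂˣ) = (q : SL(2, ZMod N) × ℂˣ) * hN M N g := by
      rw [hq, map_inv, inv_mul_cancel_right]
    have h2 := ig q' q h1 (g⁻¹ • τ)
    rw [smul_inv_smul] at h2
    exact h2.symm

theorem maxp_finite (hN0 : N ≠ 0) : Finite (QN M N) := by
  have : NeZero N := ⟨hN0⟩
  have hfin : Set.Finite {z : ℂˣ | z ^ 4 = 1} := by
    have h1 : Set.Finite {z : ℂ | z ^ 4 = 1} := by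
      have := (Polynomial.X ^ 4 - 1 : Polynomial ℂ).rootSet_finite ℂ
      refine this.subset fun z hz => ?_
      rw [Polynomial.mem_rootSet]
      refine ⟨Polynomial.X_pow_sub_C_ne_zero (by norm_num) 1, ?_⟩
      have hz' : z ^ 4 = 1 := hz
      simp [hz']
    exact Set.Finite.of_finite_image (f := fun z : ℂˣ => (z : ℂ)) (h1.subset (by
      rintro _ ⟨z, hz, rfl⟩
      have hz' : z ^ 4 = 1 := hz
      show (z : ℂ) ^ 4 = 1
      rw [← Units.val_pow_eq_pow_val, hz', Units.val_one])) (Units.val_injective.injOn)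
  have : Finite {z : ℂˣ // z ^ 4 = 1} := hfin
  refine Finite.of_injective (β := SL(2, ZMod N) × {z : ℂˣ // z ^ 4 = 1})
    (fun q => ((q : SL(2, ZMod N) × ℂˣ).1, ⟨(q : SL(2, ZMod N) × ℂˣ).2, ?_⟩)) ?_
  · obtain ⟨γ, hγ⟩ := q.2
    rw [← hγ]
    exact M.χ_pow γ
  · intro a b hab
    have h1 := congrArg Prod.fst hab
    have h2 := congrArg (fun z => (z.2 : ℂˣ)) hab
    exact Subtype.ext (Prod.ext h1 h2)

theorem maxp_cont {δ : ℝ} {D : ℂ → ℂ} (hD : DifferentiableOn ℂ D {τ : ℂ | 0 < τ.im}) (ζ : ℂ) :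
    ContinuousOn (fun τ => maxp_Psi M δ D ζ τ) {τ : ℂ | 0 < τ.im} := by
  have hF1 : ContinuousOn M.F₁ {τ : ℂ | 0 < τ.im} := fun z hz =>
    (M.hF₁ z hz).continuousAt.continuousWithinAt
  have hF2 : ContinuousOn M.F₂ {τ : ℂ | 0 < τ.im} := fun z hz =>
    (M.hF₂ z hz).continuousAt.continuousWithinAt
  have h1 : ContinuousOn (fun z => (((ζ * M.F₁ z).re : ℝ) : ℂ)) {τ : ℂ | 0 < τ.im} :=
    Complex.continuous_ofReal.comp_continuousOn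
      (Complex.continuous_re.comp_continuousOn (continuousOn_const.mul hF1))
  have h2 : ContinuousOn (fun z => (((ζ * M.F₂ z).re : ℝ) : ℂ)) {τ : ℂ | 0 < τ.im} :=
    Complex.continuous_ofReal.comp_continuousOn
      (Complex.continuous_re.comp_continuousOn (continuousOn_const.mul hF2))
  exact hD.continuousOn.sub (continuousOn_const.mul ((h1.mul continuousOn_id).add h2))

theorem maxp_bound (δ : ℝ) (D : ℂ → ℂ) (ζ : ℂ)
    (hlim : ∃ b : ℂ, ∀ ε > 0, ∃ Y : ℝ, ∀ τ : ℂ, Y < τ.im → ‖D τ - b‖ < ε) :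
    ∃ B Y : ℝ, ∀ τ : ℂ, |τ.re| ≤ 1 / 2 → Y < τ.im → 1 / 2 ≤ τ.im →
      ‖maxp_Psi M δ D ζ τ‖ ≤ B := by
  obtain ⟨b, hb⟩ := hlim
  obtain ⟨Y, hY⟩ := hb 1 one_pos
  obtain ⟨C, hC⟩ := M.decay
  have hC0 : 0 ≤ C := by
    have h1 := (hC I (by norm_num) (by norm_num)).1
    have h2 : 0 ≤ C * Real.exp (-I.im) := (norm_nonneg _).trans h1
    exact nonneg_of_mul_nonneg_left h2 (Real.exp_pos _)
  refine ⟨‖b‖ + 1 + |δ| * (‖ζ‖ * (2 * C)), Y, fun τ h1 h2 h3 => ?_⟩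
  have hy : 0 < τ.im := by linarith
  have hD : ‖D τ‖ ≤ ‖b‖ + 1 := by
    have := hY τ h2
    calc ‖D τ‖ = ‖(D τ - b) + b‖ := by rw [sub_add_cancel]
      _ ≤ ‖D τ - b‖ + ‖b‖ := norm_add_le _ _
      _ ≤ ‖b‖ + 1 := by linarith
  obtain ⟨hF1, hF2⟩ := hC τ h3 (by linarith)
  have hτn : ‖τ‖ ≤ 1 + τ.im := by
    calc ‖τ‖ ≤ |τ.re| + |τ.im| := Complex.norm_le_abs_re_add_abs_im τ
      _ ≤ 1 + τ.im := by rw [abs_of_pos hy]; linarith
  have hexp : Real.exp (-τ.im) * (2 + τ.im) ≤ 2 := by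
    have h4 : τ.im + 1 ≤ Real.exp τ.im := Real.add_one_le_exp _
    rw [Real.exp_neg, inv_mul_le_iff₀ (Real.exp_pos _)]
    linarith
  have e1 : ‖(((ζ * M.F₁ τ).re : ℝ) : ℂ)‖ ≤ ‖ζ‖ * (C * Real.exp (-τ.im)) := by
    rw [Complex.norm_real, Real.norm_eq_abs]
    refine (Complex.abs_re_le_norm _).trans ?_
    rw [norm_mul]
    gcongr
  have e2 : ‖(((ζ * M.F₂ τ).re : ℝ) : ℂ)‖ ≤ ‖ζ‖ * (C * Real.exp (-τ.im)) := by
    rw [Complex.norm_real, Real.norm_eq_abs]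
    refine (Complex.abs_re_le_norm _).trans ?_
    rw [norm_mul]
    gcongr
  have e3 : ‖sF M δ ζ τ‖ ≤ |δ| * (‖ζ‖ * (2 * C)) := by
    unfold sF
    rw [norm_mul, Complex.norm_real, Real.norm_eq_abs]
    gcongr
    calc ‖(((ζ * M.F₁ τ).re : ℝ) : ℂ) * τ + (((ζ * M.F₂ τ).re : ℝ) : ℂ)‖
        ≤ ‖(((ζ * M.F₁ τ).re : ℝ) : ℂ)‖ * ‖τ‖ + ‖(((ζ * M.F₂ τ).re : ℝ) : ℂ)‖ := by
          rw [← norm_mul]; exact norm_add_le _ _
      _ ≤ (‖ζ‖ * (C * Real.exp (-τ.im))) * (1 + τ.im) + ‖ζ‖ * (C * Real.exp (-τ.im)) := by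
          gcongr
      _ = ‖ζ‖ * C * (Real.exp (-τ.im) * (2 + τ.im)) := by ring
      _ ≤ ‖ζ‖ * C * 2 := by gcongr
      _ = ‖ζ‖ * (2 * C) := by ring
  calc ‖maxp_Psi M δ D ζ τ‖ ≤ ‖D τ‖ + ‖sF M δ ζ τ‖ := norm_sub_le _ _
    _ ≤ _ := add_le_add hD e3

theorem maxp_decay (δ : ℝ) (D : QN M N → ℂ → ℂ) (q : QN M N)
    (hlim : ∃ b : ℂ, ∀ ε > 0, ∃ Y : ℝ, ∀ τ : ℂ, Y < τ.im → ‖D q τ - b‖ < ε) {c : ℝ} (hc : 0 < c) :
    ∀ᶠ Y in Filter.atTop, ∀ τ : ℍ, |τ.re| ≤ 1 / 2 → Y ≤ τ.im → maxp_N M δ D q τ < c := by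
  obtain ⟨B, Y, hB⟩ := maxp_bound M δ (D q) (zet M q) hlim
  filter_upwards [Filter.eventually_gt_atTop Y, Filter.eventually_ge_atTop (1 / 2),
    Filter.eventually_gt_atTop (B ^ 2 / c)] with Z h1 h2 h3 τ hre him
  have h4 := hB τ hre (lt_of_lt_of_le h1 him) (le_trans h2 him)
  have h5 : B ^ 2 / c < τ.im := lt_of_lt_of_le h3 him
  unfold maxp_N
  rw [div_lt_iff₀ τ.im_pos, Complex.normSq_eq_norm_sq]
  rw [div_lt_iff₀ hc] at h5
  have h6 : ‖maxp_Psi M δ (D q) (zet M q) τ‖ ^ 2 ≤ B ^ 2 :=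
    pow_le_pow_left₀ (norm_nonneg _) h4 2
  linarith [mul_comm c τ.im]

/-- the element `q (h_N γ)⁻¹` -/
theorem maxp_ex (q : QN M N) (γ : SL(2, ℤ)) :
    ∃ q' : QN M N, (q : SL(2, ZMod N) × ℂˣ) = (q' : SL(2, ZMod N) × ℂˣ) * hN M N γ := by
  refine ⟨q * ⟨(hN M N γ)⁻¹, (hN M N).range.inv_mem ⟨γ, rfl⟩⟩, ?_⟩
  rw [Subgroup.coe_mul, inv_mul_cancel_right]

/-- module MAXP -/
theorem st_MAXP : ST_MAXP := by
  intro M N hN δ D hδ hD htr hlim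
  have hN0 : N ≠ 0 := by
    obtain ⟨_, h⟩ := hN
    omega
  have hfin : Finite (QN M N) := maxp_finite M hN0
  have hS : maxp_Inv M δ D ModularGroup.S :=
    maxp_inv_gen M δ D _ fun q q' hq τ hτ => htr q q' _ (Or.inl rfl) hq τ hτ
  have hT : maxp_Inv M δ D ModularGroup.T :=
    maxp_inv_gen M δ D _ fun q q' hq τ hτ => htr q q' _ (Or.inr rfl) hq τ hτ
  have hall := maxp_inv_all M δ D hS hT
  by_cases hz : ∀ q : QN M N, ∀ τ : ℂ, 0 < τ.im → maxp_Psi M δ (D q) (zet M q) τ = 0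
  · have h1 := maxp_zero M (hD 1) (zet M (1 : QN M N)) I (by norm_num) (hz 1)
    have hg := M.g_ne I (by norm_num)
    rcases mul_eq_zero.1 h1 with h2 | h2
    · exact hδ (by exact_mod_cast h2)
    · rcases mul_eq_zero.1 h2 with h3 | h3
      · exact maxp_zet_ne M _ h3
      · exact hg h3
  push Not at hz
  obtain ⟨q0, τ0, hτ0, hne⟩ := hz
  set σ0 : ℍ := ⟨τ0, hτ0⟩ with hσ0
  obtain ⟨γ, hγ⟩ := ModularGroup.exists_smul_mem_fd σ0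
  obtain ⟨q1, hq1⟩ := maxp_ex M q0 γ
  set c := maxp_N M δ D q1 (γ • σ0) with hcdef
  have hc : 0 < c := by
    rw [hcdef, hall γ q0 q1 hq1 σ0]
    exact div_pos (Complex.normSq_pos.2 hne) σ0.im_pos
  have hev : ∀ᶠ Y in Filter.atTop, ∀ q : QN M N, ∀ τ : ℍ, |τ.re| ≤ 1 / 2 → Y ≤ τ.im →
      maxp_N M δ D q τ < c := Filter.eventually_all.2 fun q => maxp_decay M δ D q (hlim q) hc
  obtain ⟨Y, hY⟩ := hev.exists
  have hfd : ∀ τ : ℍ, τ ∈ ModularGroup.fd → |τ.re| ≤ 1 / 2 ∧ 1 / 2 ≤ τ.im := by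
    intro τ hτ
    refine ⟨hτ.2, ?_⟩
    have h1 := ModularGroup.three_le_four_mul_im_sq_of_mem_fd hτ
    nlinarith [τ.im_pos]
  set K : Set ℂ := Set.Icc (-(1 / 2) : ℝ) (1 / 2) ×ℂ Set.Icc (1 / 2 : ℝ) Y with hK
  have hKc : IsCompact K := isCompact_Icc.reProdIm isCompact_Icc
  have hKH : K ⊆ {τ : ℂ | 0 < τ.im} := by
    intro z hz
    have h1 : (1 / 2 : ℝ) ≤ z.im := hz.2.1
    show 0 < z.im
    linarith
  have hmem : ∀ τ : ℍ, τ ∈ ModularGroup.fd → τ.im ≤ Y → (τ : ℂ) ∈ K := by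
    intro τ hτ hle
    obtain ⟨h1, h2⟩ := hfd τ hτ
    exact ⟨⟨(abs_le.1 h1).1, (abs_le.1 h1).2⟩, ⟨h2, hle⟩⟩
  have h0K : ((γ • σ0 : ℍ) : ℂ) ∈ K := by
    apply hmem _ hγ
    by_contra hcon
    rw [not_le] at hcon
    have := hY q1 (γ • σ0) (hfd _ hγ).1 hcon.le
    exact lt_irrefl _ this
  have hcont : ∀ q : QN M N, ContinuousOn
      (fun z : ℂ => Complex.normSq (maxp_Psi M δ (D q) (zet M q) z) / z.im) K := by
    intro q
    refine ContinuousOn.div ?_ Complex.continuous_im.continuousOn fun z hz => (hKH hz).ne'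
    exact Complex.continuous_normSq.comp_continuousOn
      ((maxp_cont M (hD q) (zet M q)).mono hKH)
  have hmaxq : ∀ q : QN M N, ∃ z ∈ K, ∀ w ∈ K,
      Complex.normSq (maxp_Psi M δ (D q) (zet M q) w) / w.im ≤
        Complex.normSq (maxp_Psi M δ (D q) (zet M q) z) / z.im := by
    intro q
    obtain ⟨z, hz, hz2⟩ := hKc.exists_isMaxOn ⟨_, h0K⟩ (hcont q)
    exact ⟨z, hz, fun w hw => hz2 hw⟩
  choose z hzK hzmax using hmaxq
  have : Nonempty (QN M N) := ⟨1⟩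
  obtain ⟨q2, hq2⟩ := Finite.exists_max fun q : QN M N =>
    Complex.normSq (maxp_Psi M δ (D q) (zet M q) (z q)) / (z q).im
  set m := Complex.normSq (maxp_Psi M δ (D q2) (zet M q2) (z q2)) / (z q2).im with hm
  have hKm : ∀ q : QN M N, ∀ w ∈ K,
      Complex.normSq (maxp_Psi M δ (D q) (zet M q) w) / w.im ≤ m :=
    fun q w hw => (hzmax q w hw).trans (hq2 q)
  have hcm : c ≤ m := hKm q1 _ h0K
  have hglob : ∀ q : QN M N, ∀ τ : ℍ, maxp_N M δ D q τ ≤ m := by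
    intro q τ
    obtain ⟨γ', hγ'⟩ := ModularGroup.exists_smul_mem_fd τ
    obtain ⟨q', hq'⟩ := maxp_ex M q γ'
    rw [← hall γ' q q' hq' τ]
    rcases le_total Y (γ' • τ).im with h1 | h1
    · exact (hY q' _ (hfd _ hγ').1 h1).le.trans hcm
    · exact hKm q' _ (hmem _ hγ' h1)
  have hz2 : 0 < (z q2).im := hKH (hzK q2)
  refine maxp_point M (δ := δ) (hD q2) (zet M q2) (z q2) hz2 m ?_ ?_ ?_
  · intro σ hσ
    have := hglob q2 ⟨σ, hσ⟩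
    unfold maxp_N at this
    rwa [div_le_iff₀ (UpperHalfPlane.im_pos _)] at this
  · rw [hm, div_mul_cancel₀ _ hz2.ne']
  · intro h0
    rw [h0, map_zero, zero_div] at hm
    linarith

end RicP
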